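import Pool.Agent.V8H19.AP.F2Main

/-!
# Subspaces of codimension `O (log² (1/α) log log (1/α))` in `4A`, and `7/8` of a coset of them in `A + A`

For `A ⊆ F₂ⁿ` of density at least `α` there is a subspace `W` of codimension at most `C ℓ² log (2 + ℓ)`,
`ℓ = log (1/α)`, such that `W ⊆ A + A + A + A`, and such that `A + A` contains at least `7/8` of the elements of some
coset of `W`. Sanders (2010) has `O (ℓ⁴)`.

The proof (`V8H19.AP`) is an averaged, entropic form of the argument of Croot and Sisask, applied to a pair of laws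
`(p, q)` that maximizes `H (p) + H (q) + 40 ℓ' P (x + b ∈ A + A)` with capped entropies: see `Step`, `Ext`, `Lev`,
`Smooth`; `p` is smoothed `O (ℓ)` times by different laws of density `exp (O (ℓ² log (2 + ℓ)))`, and Chang's theorem is
applied to the family of these laws (`F2`, `F2Main`).
-/

set_option autoImplicit false

namespace Pool.Agent.Results.MP_c6cae0_co.QuadraticBogolyubov

open Pool.Agent.V8H19
open scoped Pointwise

theorem neg_self {n : ℕ} (x : Fin n → ZMod 2) : -x = x := by
  funext i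
  exact ZMod.neg_eq_self_mod_two (x i)

/-- two translates of a set that contains `7/8` of a coset of `W` meet -/
theorem four_of_two {n : ℕ} (A : Finset (Fin n → ZMod 2)) (W : Submodule (ZMod 2) (Fin n → ZMod 2))
    (z : Fin n → ZMod 2) (h : (7 / 8 : ℝ) * (W : Set (Fin n → ZMod 2)).ncard ≤ {w | w ∈ W ∧ z + w ∈ A + A}.ncard)
    (w : Fin n → ZMod 2) (hw : w ∈ W) : w ∈ A + A + A + A := by
  classical
  obtain ⟨U, hU⟩ : ∃ U : Set (Fin n → ZMod 2), U = {w | w ∈ W ∧ z + w ∈ A + A} := ⟨_, rfl⟩
  obtain ⟨U', hU'⟩ : ∃ U' : Set (Fin n → ZMod 2), U' = (fun u => w + u) '' U := ⟨_, rfl⟩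
  have hWfin : (W : Set (Fin n → ZMod 2)).Finite := Set.toFinite _
  have hW0 : 0 < (W : Set (Fin n → ZMod 2)).ncard := by
    rw [Set.ncard_pos hWfin]
    exact ⟨0, W.zero_mem⟩
  have hW0R : (0 : ℝ) < (W : Set (Fin n → ZMod 2)).ncard := by exact_mod_cast hW0
  have h1 : U'.ncard = U.ncard := by
    rw [hU']
    exact Set.ncard_image_of_injective _ fun a b hab => by simpa using hab
  have hne : (U ∩ U').Nonempty := by
    rw [Set.nonempty_iff_ne_empty]
    intro hem
    have h2 : (U ∪ U').ncard = U.ncard + U'.ncard :=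
      Set.ncard_union_eq (Set.disjoint_iff_inter_eq_empty.2 hem) (Set.toFinite _) (Set.toFinite _)
    have h3 : (U ∪ U').ncard ≤ (W : Set (Fin n → ZMod 2)).ncard := by
      refine Set.ncard_le_ncard ?_ hWfin
      rintro u (hu | hu)
      · rw [hU] at hu
        exact hu.1
      · rw [hU'] at hu
        obtain ⟨u', hu', rfl⟩ := hu
        rw [hU] at hu'
        exact W.add_mem hw hu'.1
    rw [h2, h1] at h3
    have h4 : (U.ncard : ℝ) + U.ncard ≤ (W : Set (Fin n → ZMod 2)).ncard := by exact_mod_cast h3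
    rw [hU] at h4
    linarith
  obtain ⟨u, hu, hu'⟩ := hne
  rw [hU'] at hu'
  obtain ⟨u', hu'', hu3⟩ := hu'
  rw [hU] at hu hu''
  obtain ⟨a, ha, b, hb, hab⟩ := Finset.mem_add.1 hu.2
  obtain ⟨c, hc, d, hd, hcd⟩ := Finset.mem_add.1 hu''.2
  have e : w = a + b + c + d := by
    have h5 : u' + u' = 0 := by
      nth_rewrite 1 [← neg_self u']
      exact neg_add_cancel u'
    have h6 : z + z = 0 := by
      nth_rewrite 1 [← neg_self z]
      exact neg_add_cancel z
    calc w = w + (u' + u') + (z + z) := by rw [h5, h6, add_zero, add_zero]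
      _ = (z + (w + u')) + (z + u') := by abel
      _ = (z + u) + (z + u') := by rw [← hu3]
      _ = (a + b) + (c + d) := by rw [hab, hcd]
      _ = a + b + c + d := by abel
  rw [e]
  exact Finset.add_mem_add (Finset.add_mem_add (Finset.add_mem_add ha hb) hc) hd

/-- **Subspaces of codimension `O (log² (1/α) log log (1/α))` in `4A`.** -/
theorem result : ∃ C : ℝ, 0 < C ∧ ∀ n : ℕ, ∀ α : ℝ, 0 < α → α ≤ 1 →
    ∀ A : Finset (Fin n → ZMod 2), α * (2 : ℝ) ^ n ≤ (A.card : ℝ) →
      ∃ W : Submodule (ZMod 2) (Fin n → ZMod 2),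
        (n : ℝ) - (Module.finrank (ZMod 2) W : ℝ) ≤ C * (Real.log (1 / α) ^ 2 * Real.log (2 + Real.log (1 / α))) ∧
        (∀ w ∈ W, w ∈ A + A + A + A) ∧
        ∃ x : Fin n → ZMod 2,
          (7 / 8 : ℝ) * (W : Set (Fin n → ZMod 2)).ncard ≤ {w | w ∈ W ∧ x + w ∈ A + A}.ncard := by
  refine ⟨10000000000000, by norm_num, ?_⟩
  intro n α hα hα1 A hA
  have h2n : (0 : ℝ) < 2 ^ n := by positivity
  have hA0 : (0 : ℝ) < A.card := lt_of_lt_of_le (by positivity) hA
  have hAne : A.Nonempty := by
    rw [← Finset.card_pos]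
    exact_mod_cast hA0
  have hlogα : 0 ≤ Real.log (1 / α) := by
    apply Real.log_nonneg
    rw [le_div_iff₀ hα]
    linarith
  have hlog2 : 0 ≤ Real.log (2 + Real.log (1 / α)) := Real.log_nonneg (by linarith)
  rcases le_or_gt (A.card : ℝ) (2 ^ n / 2) with hc | hc
  · obtain ⟨W, h1, z, h2⟩ := AP.F2.main A hAne hc
    refine ⟨W, h1.trans ?_, four_of_two A W z h2, z, h2⟩
    have h3 : Real.log (2 ^ n / A.card) ≤ Real.log (1 / α) := by
      apply Real.log_le_log (by positivity)
      rw [div_le_div_iff₀ hA0 hα]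
      linarith
    have h4 : 0 ≤ Real.log (2 ^ n / A.card) := by
      apply Real.log_nonneg
      rw [le_div_iff₀ hA0]
      linarith
    have h5 : 0 ≤ Real.log (2 + Real.log (2 ^ n / A.card)) := Real.log_nonneg (by linarith)
    gcongr
  · have hall : ∀ y : Fin n → ZMod 2, y ∈ A + A := by
      intro y
      have hcu : ((Finset.univ : Finset (Fin n → ZMod 2)).card : ℝ) = 2 ^ n := by
        rw [Finset.card_univ]
        simp
      obtain ⟨B, hB⟩ : ∃ B : Finset (Fin n → ZMod 2), B = A.image fun a => y - a := ⟨_, rfl⟩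
      have hBc : B.card = A.card := by
        rw [hB]
        exact Finset.card_image_of_injective _ fun a b hab => by simpa using hab
      have hne : (A ∩ B).Nonempty := by
        rw [Finset.nonempty_iff_ne_empty]
        intro hem
        have h2 : (A ∪ B).card = A.card + B.card := Finset.card_union_of_disjoint (Finset.disjoint_iff_inter_eq_empty.2 hem)
        have h3 : ((A ∪ B).card : ℝ) ≤ 2 ^ n := by
          rw [← hcu]
          exact_mod_cast Finset.card_le_univ _
        rw [h2, hBc] at h3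
        push_cast at h3
        linarith
      obtain ⟨a, ha⟩ := hne
      rw [Finset.mem_inter, hB, Finset.mem_image] at ha
      obtain ⟨ha, b, hb, hab⟩ := ha
      exact Finset.mem_add.2 ⟨a, ha, b, hb, by rw [← hab, sub_add_cancel]⟩
    have h78 : (7 / 8 : ℝ) * ((⊤ : Submodule (ZMod 2) (Fin n → ZMod 2)) : Set (Fin n → ZMod 2)).ncard ≤
        {w | w ∈ (⊤ : Submodule (ZMod 2) (Fin n → ZMod 2)) ∧ 0 + w ∈ A + A}.ncard := by
      have h1 : {w | w ∈ (⊤ : Submodule (ZMod 2) (Fin n → ZMod 2)) ∧ 0 + w ∈ A + A} =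
          ((⊤ : Submodule (ZMod 2) (Fin n → ZMod 2)) : Set (Fin n → ZMod 2)) := by
        ext w
        constructor
        · exact fun h => h.1
        · exact fun h => ⟨h, hall _⟩
      rw [h1]
      have : (0 : ℝ) ≤ ((⊤ : Submodule (ZMod 2) (Fin n → ZMod 2)) : Set (Fin n → ZMod 2)).ncard := Nat.cast_nonneg _
      linarith
    refine ⟨⊤, ?_, four_of_two A ⊤ 0 h78, 0, h78⟩
    rw [finrank_top, Module.finrank_fin_fun, sub_self]
    positivity

end Pool.Agent.Results.MP_c6cae0_co.QuadraticBogolyubov
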